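import Mathlib
import Pool.Agent.Run7.h854.FQ.Win
import Pool.Agent.Run7.h854.FQ.GauB

/-!
# The primes dividing the repeating block of `1 / p`, on average over the base

For a prime `p` not dividing the base `g`, the prime `p` divides the repeating block of `1 / p` in the
base `g` if and only if the Fermat quotient `(g ^ (p - 1) - 1) / p` is `0` modulo `p` (part (1)). We
fix a value `c` of the Fermat quotient and let the base `g` run through `X` consecutive integers (or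
`X` terms of a progression `h + q i`).

(2), (3) The numbers of these primes in disjoint windows `(y ^ u, y ^ v]` have, in the limit
`y → ∞`, independent Poisson laws with the means `log (v / u)`, uniformly in `c`, `h`, `q`
and in `X ≥ y ^ K`; the same for arbitrary finite sets of primes `p = X ^ o(1)` moving to infinity.
(4) There is no such prime in `(y, y ^ c']` with probability tending to `1 / c'`.
(5) For every `N`, the bases without such a prime `p > N` have density zero, uniformly in all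
intervals.
(6) The number of these primes up to `y`, centred at `log log y` and divided by `√(log log y)`, has the
standard normal law in the limit, uniformly in `c`, `h` and in `X ≥ y ^ 2`.

Proof. Modulo `p ^ 2` there are exactly `p - 1` bases (one for each nonzero class modulo `p`) with
the Fermat quotient `c`, and for different primes these conditions are independent. Bonferroni's
inequalities for the generating function; for (6) the characteristic function is expanded to the order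
`C √(log log y)`.
-/

set_option autoImplicit false

namespace Pool.Agent.Results.MP_5e2fbc_nt.LawsOverBases

open Finset Filter Topology MeasureTheory ProbabilityTheory
open scoped Classical Nat

/-- the integer formed by the repeating block of `1 / p` in the base `g`; its length is the order of
`g` modulo `p` -/
noncomputable def block (g p : ℕ) : ℕ := (g ^ orderOf (g : ZMod p) - 1) / p

/-- `p` is a prime which does not divide the base `g`, and the Fermat quotient
`(g ^ (p - 1) - 1) / p` is congruent to `c` modulo `p` -/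
def HasQuotient (c g : ℤ) (p : ℕ) : Prop :=
  p.Prime ∧ ¬ (p : ℤ) ∣ g ∧ (p : ℤ) ^ 2 ∣ g ^ (p - 1) - 1 - c * p

/-- the number of the primes in the set `T` with the Fermat quotient `c` of the base `g` -/
noncomputable def number (c g : ℤ) (T : Set ℕ) : ℕ := {p : ℕ | p ∈ T ∧ HasQuotient c g p}.ncard

/-- the window `(y ^ u, y ^ v]` -/
def window (y : ℕ) (u v : ℝ) : Set ℕ := {p : ℕ | (y : ℝ) ^ u < p ∧ (p : ℝ) ≤ (y : ℝ) ^ v}

/-- the proportion of the indices `1 ≤ i ≤ X` such that the base `h + q i` has exactly `k s` primes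
with the Fermat quotient `c` in `T s`, for every `s` -/
noncomputable def proportion {r : ℕ} (c h q : ℤ) (X : ℕ) (T : Fin r → Set ℕ) (k : Fin r → ℕ) : ℝ :=
  ({i ∈ Icc 1 X | ∀ s, number c (h + q * (i : ℤ)) (T s) = k s} : Finset ℕ).card / X

/-- the distribution function of the standard normal law -/
noncomputable def Phi (x : ℝ) : ℝ := ((gaussianReal 0 1) (Set.Iic x)).toReal

theorem block_iff (g p : ℕ) (hp : p.Prime) (hg : ¬ p ∣ g) : HasQuotient 0 g p ↔ p ∣ block g p := by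
  have : Fact p.Prime := ⟨hp⟩
  have : NeZero p := ⟨hp.ne_zero⟩
  have hg0 : (g : ZMod p) ≠ 0 := by
    rw [Ne, ZMod.natCast_eq_zero_iff]
    exact hg
  obtain ⟨k, hk⟩ := orderOf_dvd_of_pow_eq_one (ZMod.pow_card_sub_one_eq_one hg0)
  have h1 : (g : ZMod p) ^ orderOf (g : ZMod p) = 1 := pow_orderOf_eq_one _
  unfold block
  generalize orderOf (g : ZMod p) = l at hk h1 ⊢
  have hg1 : 1 ≤ g := Nat.one_le_iff_ne_zero.2 (by
    rintro rfl
    exact hg (dvd_zero p))
  have hx : (p : ℤ) ∣ (g : ℤ) ^ l - 1 := by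
    rw [← ZMod.intCast_zmod_eq_zero_iff_dvd]
    push_cast
    rw [h1, sub_self]
  have hc : ((g ^ l - 1 : ℕ) : ℤ) = (g : ℤ) ^ l - 1 := by
    rw [Nat.cast_sub (Nat.one_le_pow _ _ hg1)]
    push_cast
    ring
  have hnat : p ∣ g ^ l - 1 := by
    rw [← Int.natCast_dvd_natCast, hc]
    exact hx
  have hb : p ∣ (g ^ l - 1) / p ↔ (p : ℤ) ^ 2 ∣ (g : ℤ) ^ l - 1 := by
    rw [Nat.dvd_div_iff_mul_dvd hnat, ← Int.natCast_dvd_natCast, hc, pow_two, Nat.cast_mul]
  rw [hb]
  have hmul : (g : ℤ) ^ (p - 1) - 1 = ((g : ℤ) ^ l - 1) * ∑ i ∈ range k, ((g : ℤ) ^ l) ^ i := by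
    rw [mul_geom_sum, ← pow_mul, ← hk]
  constructor
  · rintro ⟨_, _, h⟩
    rw [zero_mul, sub_zero, hmul] at h
    have hcop : IsCoprime ((p : ℤ) ^ 2) (∑ i ∈ range k, ((g : ℤ) ^ l) ^ i) := by
      refine IsCoprime.pow_left ((Nat.prime_iff_prime_int.1 hp).coprime_iff_not_dvd.2 ?_)
      intro h3
      have h4 : (p : ℤ) ∣ ∑ i ∈ range k, (((g : ℤ) ^ l) ^ i - 1) := by
        refine dvd_sum fun i _ => hx.trans ?_
        have := sub_dvd_pow_sub_pow ((g : ℤ) ^ l) 1 i
        rwa [one_pow] at this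
      rw [sum_sub_distrib, sum_const, card_range, nsmul_eq_mul, mul_one] at h4
      have h5 : (p : ℤ) ∣ (k : ℤ) := by
        have := dvd_sub h3 h4
        rwa [sub_sub_cancel] at this
      have h6 : p ∣ k := by exact_mod_cast h5
      have h8 : 0 < p - 1 := by
        have := hp.two_le
        omega
      have h9 : p ∣ p - 1 := by
        rw [hk]
        exact h6.mul_left l
      have := Nat.le_of_dvd h8 h9
      omega
    exact hcop.dvd_of_dvd_mul_right h
  · intro h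
    refine ⟨hp, ?_, ?_⟩
    · exact_mod_cast hg
    · rw [zero_mul, sub_zero, hmul]
      exact h.mul_right _

lemma number_eq (b h q : ℤ) (i : ℕ) (T : Finset ℕ) (S : Set ℕ) (hS : ∀ p : ℕ, p.Prime → (p ∈ T ↔ p ∈ S)) :
    number b (h + q * (i : ℤ)) S = (T.filter (fun p => Run7.h854.FQ.Wi ⟨b, h, q⟩ i p)).card := by
  unfold number
  rw [← Set.ncard_coe_finset]
  congr 1
  ext p
  rw [mem_coe, mem_filter]
  constructor
  · rintro ⟨h1, h2⟩
    exact ⟨(hS p h2.1).2 h1, h2⟩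
  · rintro ⟨h1, h2⟩
    exact ⟨(hS p h2.1).1 h1, h2⟩

lemma proportion_eq {r : ℕ} (b h q : ℤ) (X : ℕ) (T : Fin r → Finset ℕ) (S : Fin r → Set ℕ)
    (hS : ∀ s, ∀ p : ℕ, p.Prime → (p ∈ T s ↔ p ∈ S s)) (k : Fin r → ℕ) :
    proportion b h q X S k = (((Icc 1 X).filter (fun i : ℕ => ∀ s,
      ((T s).filter (fun p => Run7.h854.FQ.Wi ⟨b, h, q⟩ i p)).card = k s)).card : ℝ) / X := by
  have h1 : ({i ∈ Icc 1 X | ∀ s, number b (h + q * (i : ℤ)) (S s) = k s} : Finset ℕ) =
      (Icc 1 X).filter (fun i : ℕ => ∀ s,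
        ((T s).filter (fun p => Run7.h854.FQ.Wi ⟨b, h, q⟩ i p)).card = k s) := by
    ext i
    rw [mem_filter, mem_filter]
    refine and_congr_right fun _ => forall_congr' fun s => ?_
    rw [number_eq b h q i (T s) (S s) (hS s)]
  unfold proportion
  rw [h1]

/-- **The primes dividing the repeating block of `1 / p`, on average over the base.** -/
theorem result :
    -- (1) the primes of Q1
    (∀ g p : ℕ, p.Prime → ¬ p ∣ g → (HasQuotient 0 g p ↔ p ∣ block g p)) ∧
    -- (2) general sets of primes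
    (∀ (r : ℕ) (X : ℕ → ℕ) (T : ℕ → Fin r → Finset ℕ) (lam : Fin r → ℝ) (b h q : ℕ → ℤ),
      Tendsto X atTop atTop →
      (∀ n, Pairwise fun s s' => Disjoint (T n s) (T n s')) →
      (∀ n s, ∀ p ∈ T n s, p.Prime ∧ ¬ (p : ℤ) ∣ q n) →
      (∀ K : ℕ, ∀ᶠ n in atTop, ∀ s, ∀ p ∈ T n s, K < p ∧ p ^ K ≤ X n) →
      (∀ s, Tendsto (fun n => ∑ p ∈ T n s, (1 : ℝ) / p) atTop (𝓝 (lam s))) →
      ∀ k : Fin r → ℕ, Tendsto (fun n => proportion (b n) (h n) (q n) (X n) (fun s => (T n s : Set ℕ)) k)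
        atTop (𝓝 (∏ s, (Real.exp (-lam s) * lam s ^ k s / (k s)!)))) ∧
    -- (3) windows, uniformly
    (∀ (r : ℕ) (u v : Fin r → ℝ), (∀ s, 0 < u s ∧ u s < v s) →
      (Pairwise fun s s' => v s ≤ u s' ∨ v s' ≤ u s) →
      ∀ (k : Fin r → ℕ) (ε : ℝ), 0 < ε → ∃ K y₀ : ℕ, ∀ y : ℕ, y₀ ≤ y → ∀ X : ℕ, y ^ K ≤ X →
        ∀ b h q : ℤ, (∀ s, ∀ p ∈ window y (u s) (v s), p.Prime → ¬ (p : ℤ) ∣ q) →
          |proportion b h q X (fun s => window y (u s) (v s)) k -
            ∏ s, (u s / v s * Real.log (v s / u s) ^ k s / (k s)!)| ≤ ε) ∧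
    -- (4) no such prime in a window
    (∀ c ε : ℝ, 1 < c → 0 < ε → ∃ K y₀ : ℕ, ∀ y : ℕ, y₀ ≤ y → ∀ X : ℕ, y ^ K ≤ X →
      ∀ b h : ℤ, |(({i ∈ Icc 1 X | ∀ p : ℕ, y < p → (p : ℝ) ≤ (y : ℝ) ^ c →
        ¬ HasQuotient b (h + i) p} : Finset ℕ).card : ℝ) / X - 1 / c| ≤ ε) ∧
    -- (5) almost every base has such a prime above any given bound
    (∀ (N : ℕ) (ε : ℝ), 0 < ε → ∃ X₀ : ℕ, ∀ X : ℕ, X₀ ≤ X → ∀ b h : ℤ,
      (({i ∈ Icc 1 X | ∀ p : ℕ, N < p → ¬ HasQuotient b (h + i) p} : Finset ℕ).card : ℝ) ≤ ε * X) ∧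
    -- (6) the Gaussian law
    (∀ x ε : ℝ, 0 < ε → ∃ y₀ : ℕ, ∀ y : ℕ, y₀ ≤ y → ∀ X : ℕ, y ^ 2 ≤ X → ∀ b h : ℤ,
      |(({i ∈ Icc 1 X | ((({p ∈ Icc 1 y | HasQuotient b (h + i) p} : Finset ℕ).card : ℝ) -
        Real.log (Real.log y)) / √(Real.log (Real.log y)) ≤ x} : Finset ℕ).card : ℝ) / X - Phi x| ≤ ε) := by
  have hwin : ∀ (r : ℕ) (u v : Fin r → ℝ), (∀ s, 0 < u s ∧ u s < v s) →
      (Pairwise fun s s' => v s ≤ u s' ∨ v s' ≤ u s) →
      ∀ (k : Fin r → ℕ) (ε : ℝ), 0 < ε → ∃ K y₀ : ℕ, ∀ y : ℕ, y₀ ≤ y → ∀ X : ℕ, y ^ K ≤ X →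
        ∀ b h q : ℤ, (∀ s, ∀ p ∈ window y (u s) (v s), p.Prime → ¬ (p : ℤ) ∣ q) →
          |proportion b h q X (fun s => window y (u s) (v s)) k -
            ∏ s, (u s / v s * Real.log (v s / u s) ^ k s / (k s)!)| ≤ ε := by
    intro r u v huv hd k ε hε
    obtain ⟨K, y₀, hK⟩ := Run7.h854.FQ.windows u v huv hd k hε
    refine ⟨K, y₀, fun y hy X hX b h q hq => ?_⟩
    have h1 := hK y hy X hX ⟨b, h, q⟩ (fun s p hp => by
      rw [Run7.h854.FQ.mem_WW] at hp
      exact hq s p ⟨hp.2.1, hp.2.2⟩ hp.1)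
    rw [proportion_eq b h q X (fun s => Run7.h854.FQ.WW y (u s) (v s)) _ (fun s p hp => by
      rw [Run7.h854.FQ.mem_WW]
      exact ⟨fun h => h.2, fun h => ⟨hp, h⟩⟩)]
    exact h1
  have hno : ∀ c ε : ℝ, 1 < c → 0 < ε → ∃ K y₀ : ℕ, ∀ y : ℕ, y₀ ≤ y → ∀ X : ℕ, y ^ K ≤ X →
      ∀ b h : ℤ, |(({i ∈ Icc 1 X | ∀ p : ℕ, y < p → (p : ℝ) ≤ (y : ℝ) ^ c →
        ¬ HasQuotient b (h + i) p} : Finset ℕ).card : ℝ) / X - 1 / c| ≤ ε := by
    intro c ε hc hε
    obtain ⟨K, y₀, hK⟩ := hwin 1 (fun _ => 1) (fun _ => c) (fun _ => ⟨one_pos, hc⟩)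
      (fun s s' hss => absurd (Subsingleton.elim s s') hss) (fun _ => 0) ε hε
    refine ⟨K, y₀, fun y hy X hX b h => ?_⟩
    have h1 := hK y hy X hX b h 1 (fun s p _ hp2 hp3 => by
      have h3 : p ∣ 1 := by exact_mod_cast hp3
      exact hp2.one_lt.ne' (Nat.dvd_one.1 h3))
    simp only [Fin.prod_univ_one, pow_zero, mul_one, Nat.factorial_zero, Nat.cast_one, div_one] at h1
    have h0 : ({i ∈ Icc 1 X | ∀ p : ℕ, y < p → (p : ℝ) ≤ (y : ℝ) ^ c →
        ¬ HasQuotient b (h + i) p} : Finset ℕ) =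
        ({i ∈ Icc 1 X | ∀ s : Fin 1, number b (h + 1 * (i : ℤ)) (window y 1 c) = 0} : Finset ℕ) := ?_
    · rw [h0]
      exact h1
    ext i
    rw [mem_filter, mem_filter]
    refine and_congr_right fun _ => ?_
    have hfin : {p : ℕ | p ∈ window y 1 c ∧ HasQuotient b (h + 1 * (i : ℤ)) p}.Finite := by
      refine (Set.finite_le_nat ⌊(y : ℝ) ^ c⌋₊).subset ?_
      rintro p ⟨⟨_, h3⟩, _⟩
      exact (Nat.le_floor_iff (by positivity)).2 h3
    constructor
    · intro h2 s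
      unfold number
      rw [Set.ncard_eq_zero hfin, Set.eq_empty_iff_forall_notMem]
      rintro p ⟨⟨h3, h4⟩, h5⟩
      rw [Real.rpow_one] at h3
      rw [one_mul] at h5
      exact h2 p (by exact_mod_cast h3) h4 h5
    · intro h2 p h3 h4 h5
      have h6 := h2 0
      unfold number at h6
      rw [Set.ncard_eq_zero hfin, Set.eq_empty_iff_forall_notMem] at h6
      refine h6 p ⟨⟨?_, h4⟩, ?_⟩
      · rw [Real.rpow_one]
        exact_mod_cast h3
      · rw [one_mul]
        exact h5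
  refine ⟨block_iff, ?_, hwin, hno, ?_, fun x ε hε => Run7.h854.FQ.gauss x hε⟩
  · intro r X T lam b h q hX hd hp hK hm k
    have hF : Run7.h854.FQ.Fam X T lam := ⟨hd, fun n s p hps => (hp n s p hps).1,
      fun M => (hK M).mono fun n hn s p hps => (hn s p hps).1, hX,
      fun K => (hK K).mono fun n hn s p hps => (hn s p hps).2, hm⟩
    have h1 := Run7.h854.FQ.law hF (fun n => ⟨b n, h n, q n⟩) (fun n s p hps => (hp n s p hps).2) k
    refine h1.congr fun n => ?_
    rw [proportion_eq (b n) (h n) (q n) (X n) (T n) _ (fun s p _ => by rw [mem_coe])]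
  · intro N ε hε
    have hC : 1 / (2 / ε + 2) ≤ ε / 2 := by
      rw [div_le_iff₀ (by positivity)]
      have : ε / 2 * (2 / ε + 2) = 1 + ε := by
        field_simp
      rw [this]
      linarith
    have hC1 : 1 < 2 / ε + 2 := by
      have : 0 < 2 / ε := by positivity
      linarith
    obtain ⟨K, y₀, hK⟩ := hno (2 / ε + 2) (ε / 2) hC1 (half_pos hε)
    refine ⟨max 1 (max y₀ N ^ K), fun X hX b h => ?_⟩
    have hX0 : (0 : ℝ) < X := by
      have h0 : 1 ≤ X := (le_max_left _ _).trans hX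
      exact_mod_cast h0
    have h1 := (abs_le.1 (hK (max y₀ N) (le_max_left _ _) X ((le_max_right _ _).trans hX) b h)).2
    have h2 : (({i ∈ Icc 1 X | ∀ p : ℕ, N < p → ¬ HasQuotient b (h + i) p} : Finset ℕ).card : ℝ) ≤
        (({i ∈ Icc 1 X | ∀ p : ℕ, max y₀ N < p → (p : ℝ) ≤ ((max y₀ N : ℕ) : ℝ) ^ (2 / ε + 2) →
        ¬ HasQuotient b (h + i) p} : Finset ℕ).card : ℝ) := by
      have h3 : ({i ∈ Icc 1 X | ∀ p : ℕ, N < p → ¬ HasQuotient b (h + i) p} : Finset ℕ).card ≤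
          ({i ∈ Icc 1 X | ∀ p : ℕ, max y₀ N < p → (p : ℝ) ≤ ((max y₀ N : ℕ) : ℝ) ^ (2 / ε + 2) →
          ¬ HasQuotient b (h + i) p} : Finset ℕ).card := by
        refine card_le_card fun i hi => ?_
        rw [mem_filter] at hi ⊢
        exact ⟨hi.1, fun p hp _ => hi.2 p ((le_max_right _ _).trans_lt hp)⟩
      exact_mod_cast h3
    refine h2.trans ((div_le_iff₀ hX0).1 ?_)
    linarith

end Pool.Agent.Results.MP_5e2fbc_nt.LawsOverBases
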